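import Pool.Agent.H92.SF.LUT
import Pool.Agent.H62.HIL.Eig

/-!
# MP_70ba79_ag, THEOREM S, row LTC: sections with given leading coefficient in `w`
-/

set_option autoImplicit false

namespace Pool.Agent.H67.SFU

open MvPolynomial
open Pool.Agent.H84.SM (dp cr dt)
open Pool.Agent.H3.SF Pool.Agent.H92.SF

section

variable {k F : Type} [Field k] [Field F] [Algebra k F] {u : Fin 3 → F}
  {dd : Fin 3 → Derivation k F F} {J : MvPolynomial (Fin 3) k} {m : ℕ} {G : F}

theorem one_mem_E : (1 : Q2 F) ∈ E u dd J m G 0 0 := by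
  refine ⟨⟨fun j => ⟨fun h => ?_, fun h => ?_⟩, fun j a => ?_⟩, fun j a => ?_⟩
  · have hj : j = 0 := by omega
    rw [hj, Polynomial.coeff_one_zero]
    exact isHomogeneous_one _ _
  · rw [Polynomial.coeff_one, if_neg (by omega)]
  · rw [Polynomial.coeff_one]
    split_ifs with h
    · rw [coeff_one, h]
      split_ifs
      · simpa using Pool.Agent.H62.HIL.hm_one (κ := k) (E := eu u dd)
      · exact Pool.Agent.H62.HIL.hm_zero _
    · rw [coeff_zero]
      exact Pool.Agent.H62.HIL.hm_zero _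
  · rw [map_one, Polynomial.coeff_one]
    split_ifs with h
    · rw [coeff_one]
      split_ifs
      · exact (Bb k u).one_mem
      · exact (Bb k u).zero_mem
    · rw [coeff_zero]
      exact (Bb k u).zero_mem

theorem prod_mem_E (hM : ∀ (n n' : ℕ) (τ τ' : ℤ) (V V' : Q2 F),
    V ∈ E u dd J m G n τ → V' ∈ E u dd J m G n' τ' → V * V' ∈ E u dd J m G (n + n') (τ + τ'))
    {ι : Type} (s : Finset ι) (f : ι → Q2 F) (n : ℕ) (τ : ℤ)
    (h : ∀ i ∈ s, f i ∈ E u dd J m G n τ) :
    ∏ i ∈ s, f i ∈ E u dd J m G (s.card * n) (s.card * τ) := by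
  classical
  induction s using Finset.induction_on with
  | empty => simpa using one_mem_E
  | insert a s ha ih =>
    rw [Finset.prod_insert ha, Finset.card_insert_of_notMem ha]
    have h1 := hM _ _ _ _ _ _ (h a (Finset.mem_insert_self _ _))
      (ih fun i hi => h i (Finset.mem_insert_of_mem hi))
    have h2 : n + s.card * n = (s.card + 1) * n := by ring
    have h3 : τ + (s.card : ℤ) * τ = ((s.card + 1 : ℕ) : ℤ) * τ := by push_cast; ring
    rwa [h2, h3] at h1

theorem pow_mem_E (hM : ∀ (n n' : ℕ) (τ τ' : ℤ) (V V' : Q2 F),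
    V ∈ E u dd J m G n τ → V' ∈ E u dd J m G n' τ' → V * V' ∈ E u dd J m G (n + n') (τ + τ'))
    {f : Q2 F} (h : f ∈ E u dd J m G 1 1) (a : ℕ) : f ^ a ∈ E u dd J m G a a := by
  have h1 := prod_mem_E hM (Finset.univ : Finset (Fin a)) (fun _ => f) 1 1 fun _ _ => h
  rw [Finset.prod_const, Finset.card_univ, Fintype.card_fin, mul_one, mul_one] at h1
  exact h1

end

theorem pf_LTC (hDAT : T_DAT) (hMUL : T_MUL) (hQSC : T_QSC) (hRED : T_RED) : T_LTC := by
  intro k F _ _ _ _ _ u dd δ j0 c0 J m G hB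
  obtain ⟨hM, hM2⟩ := hMUL k F u dd δ j0 c0 J m G hB
  have hQ := hQSC k F u dd δ j0 c0 J m G hB
  obtain ⟨c1, e1, hR⟩ := hRED k F u dd δ j0 c0 J m G hB
  refine ⟨c1, e1, ?_⟩
  intro N i e b he hb hbe
  choose z hz hzs using fun a => hR N e (b.coeff a) he (hbe a)
  set Ju := aeval u J with hJu
  set V : Q2 F := ∑ a ∈ b.support, ∑ l : Fin N → Fin 3,
    cq (z a l) * (Polynomial.C (∏ x, qf u dd m G x ^ a x) * ∏ j, js u dd J m G (l j)) with hV
  have hsum : ∀ a ∈ b.support, a 0 + a 1 + a 2 = i := by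
    intro a ha
    have h1 : a.degree = i := by
      rw [Finsupp.degree_eq_weight_one]
      exact hb (mem_support_iff.mp ha)
    rw [Finsupp.degree_eq_sum, Fin.sum_univ_three] at h1
    exact h1
  have hjd : ∀ l : Fin N → Fin 3, (∏ j, js u dd J m G (l j)).natDegree ≤ N := by
    intro l
    refine (Polynomial.natDegree_prod_le _ _).trans ?_
    refine (Finset.sum_le_sum fun j _ => (hQ (l j)).2.2.1).trans ?_
    simp
  have hjc : ∀ l : Fin N → Fin 3, (∏ j, js u dd J m G (l j)).coeff N =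
      C ((∏ j, (Ju * dd (l j) G)) * (((m : F) * G)⁻¹) ^ N) := by
    intro l
    have h1 := Polynomial.coeff_prod_of_natDegree_le (Finset.univ : Finset (Fin N))
      (fun j => js u dd J m G (l j)) 1 fun j _ => (hQ (l j)).2.2.1
    rw [Finset.card_univ, Fintype.card_fin, mul_one] at h1
    rw [h1]
    have h2 : ∀ j, (js u dd J m G (l j)).coeff 1 = C (Ju * dd (l j) G * ((m : F) * G)⁻¹) :=
      fun j => (hQ (l j)).2.2.2
    rw [Finset.prod_congr rfl fun j _ => h2 j, ← map_prod, Finset.prod_mul_distrib,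
      Finset.prod_const, Finset.card_univ, Fintype.card_fin]
  refine ⟨V, ?_, ?_, ?_⟩
  · refine Submodule.sum_mem _ fun a ha => Submodule.sum_mem _ fun l _ => ?_
    have h1 : Polynomial.C (∏ x, qf u dd m G x ^ a x) ∈ E u dd J m G i i := by
      rw [Fin.prod_univ_three, map_mul, map_mul, map_pow, map_pow, map_pow]
      have h2 := hM _ _ _ _ _ _ (hM _ _ _ _ _ _ (pow_mem_E hM (hQ 0).1 (a 0))
        (pow_mem_E hM (hQ 1).1 (a 1))) (pow_mem_E hM (hQ 2).1 (a 2))
      have h3 := hsum a ha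
      have h4 : ((a 0 : ℕ) : ℤ) + (a 1 : ℕ) + (a 2 : ℕ) = (i : ℤ) := by exact_mod_cast h3
      rwa [h3, h4] at h2
    have h2 := prod_mem_E hM (Finset.univ : Finset (Fin N)) (fun j => js u dd J m G (l j)) 3
      ((j0 : ℤ) + 2) fun j _ => (hQ (l j)).2.1
    rw [Finset.card_univ, Fintype.card_fin] at h2
    have h3 := hM2 _ _ _ _ _ (hz a l) (hM _ _ _ _ _ _ h1 h2)
    have h4 : i + N * 3 = i + 3 * N := by ring
    have h5 : (i : ℤ) + (N : ℤ) * ((j0 : ℤ) + 2) +
        ((e : ℤ) + (N + c1) * j0 - N * (j0 + m - 1)) =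
        (e : ℤ) + c1 * j0 + N * ((j0 : ℤ) + 3 - m) + i := by ring
    rwa [h4, h5] at h3
  · refine Polynomial.natDegree_sum_le_of_forall_le _ _ fun a _ =>
      Polynomial.natDegree_sum_le_of_forall_le _ _ fun l _ => ?_
    refine (Polynomial.natDegree_C_mul_le _ _).trans ?_
    exact (Polynomial.natDegree_C_mul_le _ _).trans (hjd l)
  · have hterm : ∀ a ∈ b.support, (∑ l : Fin N → Fin 3, cq (z a l) *
        (Polynomial.C (∏ x, qf u dd m G x ^ a x) * ∏ j, js u dd J m G (l j))).coeff N =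
        C (Ju ^ (N + c1) * (((m : F) * G)⁻¹) ^ N) *
          (C (b.coeff a) * ∏ x, qf u dd m G x ^ a x) := by
      intro a _
      rw [Polynomial.finsetSum_coeff]
      have h1 : ∀ l : Fin N → Fin 3, (cq (z a l) *
          (Polynomial.C (∏ x, qf u dd m G x ^ a x) * ∏ j, js u dd J m G (l j))).coeff N =
          (C ((∏ j, (Ju * dd (l j) G)) * z a l) * C ((((m : F) * G)⁻¹) ^ N)) *
            ∏ x, qf u dd m G x ^ a x := by
        intro l
        have h2 : cq (z a l) = Polynomial.C (C (z a l) : MvPolynomial (Fin 2) F) := rfl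
        rw [h2, Polynomial.coeff_C_mul, Polynomial.coeff_C_mul, hjc l]
        simp only [map_mul]
        ring
      rw [Finset.sum_congr rfl fun l _ => h1 l, ← Finset.sum_mul, ← Finset.sum_mul, ← map_sum,
        ← hzs a]
      simp only [map_mul]
      ring
    rw [hV, Polynomial.finsetSum_coeff, Finset.sum_congr rfl hterm, ← Finset.mul_sum]
    congr 1
    rw [aeval_def, eval₂_eq']
    rfl

end Pool.Agent.H67.SFU
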