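import Pool.Agent.H92.SF.LUT
import Pool.Agent.H92.SF.PQV
import Pool.Agent.H62.HIL.Eig

/-!
# MP_70ba79_ag, THEOREM S, row LTW: the step of the lower bound
-/

set_option autoImplicit false

namespace Pool.Agent.H67.SFU

open MvPolynomial
open Pool.Agent.H84.SM (dp cr dt)
open Pool.Agent.H3.SF Pool.Agent.H92.SF

/-- dimension count: the subspace of `A` on which all `f i` take values in `R i` -/
theorem abs_step {κ M N ι : Type} [Field κ] [AddCommGroup M] [Module κ M] [AddCommGroup N]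
    [Module κ N] [Fintype ι] (A A' : Submodule κ M) [Module.Finite κ A] [Module.Finite κ A']
    (B R : ι → Submodule κ N) (hfin : ∀ i, Module.Finite κ (B i)) (hRB : ∀ i, R i ≤ B i)
    (f : ι → M →ₗ[κ] N) (hf : ∀ i, ∀ V ∈ A, f i V ∈ B i) (g : M →ₗ[κ] M)
    (hg : ∀ V ∈ A, (∀ i, f i V ∈ R i) → ∃ W ∈ A', g W = V) :
    Module.finrank κ A + ∑ i, Module.finrank κ (R i) ≤
      Module.finrank κ A' + ∑ i, Module.finrank κ (B i) := by
  have hfin' := hfin
  let cB : ∀ i, A →ₗ[κ] B i := fun i =>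
    LinearMap.codRestrict _ ((f i).comp A.subtype) fun V => hf i V.1 V.2
  let T : A →ₗ[κ] ∀ i, (B i ⧸ (R i).submoduleOf (B i)) :=
    LinearMap.pi fun i => (Submodule.mkQ _).comp (cB i)
  have hker : (LinearMap.ker T).map A.subtype ≤ A'.map g := by
    rintro _ ⟨V, hV, rfl⟩
    have hV1 : ∀ i, f i V.1 ∈ R i := by
      intro i
      have h1 := congrFun (LinearMap.mem_ker.1 hV) i
      have h2 : (Submodule.mkQ ((R i).submoduleOf (B i))) (cB i V) = 0 := h1
      rw [Submodule.mkQ_apply, Submodule.Quotient.mk_eq_zero] at h2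
      exact h2
    obtain ⟨W, hW, hWV⟩ := hg V.1 V.2 hV1
    exact ⟨W, hW, hWV⟩
  have hkerf : Module.finrank κ (LinearMap.ker T) ≤ Module.finrank κ A' := by
    have h1 : Module.finrank κ ((LinearMap.ker T).map A.subtype) =
        Module.finrank κ (LinearMap.ker T) :=
      (LinearEquiv.finrank_eq (Submodule.equivMapOfInjective _
        (Submodule.subtype_injective _) _)).symm
    rw [← h1]
    exact (Submodule.finrank_mono hker).trans (Submodule.finrank_map_le _ _)
  have hq : ∀ i, Module.finrank κ (B i ⧸ (R i).submoduleOf (B i)) + Module.finrank κ (R i) =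
      Module.finrank κ (B i) := by
    intro i
    have h1 := Submodule.finrank_quotient_add_finrank ((R i).submoduleOf (B i))
    have h2 := LinearEquiv.finrank_eq (Submodule.submoduleOfEquivOfLe (hRB i))
    rw [h2] at h1
    exact h1
  have hrange : Module.finrank κ (LinearMap.range T) ≤
      ∑ i, Module.finrank κ (B i ⧸ (R i).submoduleOf (B i)) := by
    have h1 : Module.finrank κ (LinearMap.range T) ≤ Module.finrank κ
        (∀ i, (B i ⧸ (R i).submoduleOf (B i))) := Submodule.finrank_le _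
    rwa [Module.finrank_pi_fintype] at h1
  have htot := LinearMap.finrank_range_add_finrank_ker T
  have hsum : ∑ i, Module.finrank κ (B i ⧸ (R i).submoduleOf (B i)) +
      ∑ i, Module.finrank κ (R i) = ∑ i, Module.finrank κ (B i) := by
    rw [← Finset.sum_add_distrib]
    exact Finset.sum_congr rfl fun i _ => hq i
  omega

section

variable {k F : Type} [Field k] [Field F] [Algebra k F] {u : Fin 3 → F}
  {dd : Fin 3 → Derivation k F F} {J : MvPolynomial (Fin 3) k} {m : ℕ} {G : F}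

theorem Ps_cq (a : F) : Ps u dd J m G (cq a) = Polynomial.C (C a) := by
  unfold Ps
  exact Psi_cq _ _ _ _ _ _ _

theorem cf_cq (a : F) (V : Q2 F) (j : ℕ) (b : Fin 3 →₀ ℕ) :
    cf u dd J m G (cq a * V) j b = a * cf u dd J m G V j b := by
  unfold cf
  rw [map_mul, Ps_cq, Polynomial.coeff_C_mul, coeff_C_mul]

theorem coeff_cq (a : F) (V : Q2 F) (j : ℕ) : (cq a * V).coeff j = C a * V.coeff j := by
  have h : cq a = Polynomial.C (C a : MvPolynomial (Fin 2) F) := rfl
  rw [h, Polynomial.coeff_C_mul]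

theorem smul_eq_cq (r : k) (V : Q2 F) : r • V = cq (algebraMap k F r) * V := by
  rw [Algebra.smul_def]
  rfl

/-- the coefficients in the chart as linear maps -/
noncomputable def cfl (u : Fin 3 → F) (dd : Fin 3 → Derivation k F F)
    (J : MvPolynomial (Fin 3) k) (m : ℕ) (G : F) (j : ℕ) (b : Fin 3 →₀ ℕ) : Q2 F →ₗ[k] F where
  toFun V := cf u dd J m G V j b
  map_add' V W := by
    unfold cf
    rw [map_add, Polynomial.coeff_add, coeff_add]
  map_smul' r V := by
    rw [smul_eq_cq, cf_cq, RingHom.id_apply, Algebra.smul_def]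

theorem cfl_apply (j : ℕ) (b : Fin 3 →₀ ℕ) (V : Q2 F) :
    cfl u dd J m G j b V = cf u dd J m G V j b := rfl

theorem mulL_mem (hitg : Itg k u G) (hhom : Hm k (eu u dd) m G) (e : ℤ) :
    (BB k u (eu u dd) (e - m)).map (LinearMap.mulLeft k G) ≤ BB k u (eu u dd) e := by
  rintro _ ⟨a, ha, rfl⟩
  refine ⟨(Bb k u).mul_mem hitg ha.1, ?_⟩
  have h := Pool.Agent.H62.HIL.hm_mul hhom ha.2
  have h2 : (m : ℤ) + (e - m) = e := by ring
  rwa [h2] at h

theorem finrank_mulL (hG : G ≠ 0) (e : ℤ) :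
    Module.finrank k ((BB k u (eu u dd) (e - m)).map (LinearMap.mulLeft k G)) =
      Module.finrank k (BB k u (eu u dd) (e - m)) := by
  have hinj : Function.Injective (LinearMap.mulLeft k G) := by
    intro a b hab
    exact mul_left_cancel₀ hG hab
  exact (LinearEquiv.finrank_eq (Submodule.equivMapOfInjective _ hinj _)).symm

/-- the pairs -/
abbrev PP (n : ℕ) : Type := Σ j : Fin (n / 3 + 1), Fin (n - 3 * j + 1)

theorem card_PP (n : ℕ) : Fintype.card (PP n) = nC n := by
  rw [Fintype.card_sigma]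
  simp only [Fintype.card_fin]
  unfold nC
  rw [← Fin.sum_univ_eq_sum_range (fun s => n - 3 * s + 1) (n / 3 + 1)]

/-- the monomial of a pair -/
noncomputable def mo (n : ℕ) (p : PP n) : Fin 3 →₀ ℕ :=
  Finsupp.single 0 (p.2 : ℕ) + Finsupp.single 1 (n - 3 * (p.1 : ℕ) - (p.2 : ℕ))

theorem exists_mo {n j : ℕ} {a : Fin 3 →₀ ℕ} (h2 : a 2 = 0) (h : a 0 + a 1 + a 2 + 3 * j = n) :
    ∃ p : PP n, (p.1 : ℕ) = j ∧ mo n p = a := by
  have h1 : j < n / 3 + 1 := by omega
  have h3 : a 0 < n - 3 * ((⟨j, h1⟩ : Fin (n / 3 + 1)) : ℕ) + 1 := by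
    show a 0 < n - 3 * j + 1
    omega
  refine ⟨⟨⟨j, h1⟩, ⟨a 0, h3⟩⟩, rfl, ?_⟩
  ext i
  fin_cases i
  · simp [mo]
  · simp [mo]
    omega
  · simp [mo, h2]

end

theorem pf_LTW (hDAT : T_DAT) (hDEG : T_DEG) (hFIN : T_FIN) (hRES : T_RES) (hRDT : T_RDT) :
    T_LTW := by
  intro k F _ _ _ _ _ u dd δ j0 c0 J m G hGd n τ
  have _ := hDAT
  have hB : Bs u dd δ j0 c0 J m G := hGd.toBs
  have hfE : Module.Finite k (E u dd J m G n τ) := hFIN k F u dd δ j0 c0 J m G hB n τ
  have hfE' : Module.Finite k (E u dd J m G n ((τ : ℤ) - m)) :=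
    hFIN k F u dd δ j0 c0 J m G hB n _
  have hG0 : G ≠ 0 := hB.ne
  set e : ℕ → ℤ := fun j => (τ : ℤ) + n * ((m : ℤ) + 2 * j0 - 2) - j * (2 * m + 6 * j0 - 3)
    with he
  have hdeg : ∀ V ∈ E u dd J m G n τ, ∀ (j : ℕ) (a : Fin 3 →₀ ℕ),
      cf u dd J m G V j a ∈ BB k u (eu u dd) (e j) := fun V hV j a =>
    ⟨hV.2 j a, (hDEG k F u dd δ j0 c0 J m G hB n τ V hV.1).1 j a⟩
  have hfin : ∀ t : ℤ, Module.Finite k (BB k u (eu u dd) t) := hB.fin
  set R : ℤ → Submodule k F := fun t =>
    (BB k u (eu u dd) (t - m)).map (LinearMap.mulLeft k G) with hR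
  have hRle : ∀ t, R t ≤ BB k u (eu u dd) t := fun t => mulL_mem hB.itg hB.hom t
  have hmain := abs_step (E u dd J m G n τ) (E u dd J m G n ((τ : ℤ) - m))
    (fun p : PP n => BB k u (eu u dd) (e p.1)) (fun p => R (e p.1)) (fun p => hfin _)
    (fun p => hRle _) (fun p => cfl u dd J m G p.1 (mo n p))
    (fun p V hV => hdeg V hV _ _) (LinearMap.mulLeft k (cq G)) (by
    intro V hV hV1
    have hdiv : ∀ j a, a 2 = 0 → Itg k u (cf u dd J m G V j a / G) := by
      intro j a ha
      by_cases h0 : cf u dd J m G V j a = 0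
      · rw [h0, zero_div]
        exact (Bb k u).zero_mem
      · have h1 := (hDEG k F u dd δ j0 c0 J m G hB n τ V hV.1).2 j a h0
        obtain ⟨p, hp1, hp2⟩ := exists_mo ha h1
        have h2 := hV1 p
        rw [hp1, hp2] at h2
        obtain ⟨b, hb, hb2⟩ := h2
        have h3 : cf u dd J m G V j a = G * b := hb2.symm
        rw [h3, mul_div_cancel_left₀ _ hG0]
        exact hb.1
    have hall := hRES k F u dd δ j0 c0 J m G hGd V hV.2 hdiv
    have hmul : cq G * (cq G⁻¹ * V) = V := by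
      rw [← mul_assoc, ← map_mul, mul_inv_cancel₀ hG0, map_one, one_mul]
    refine ⟨cq G⁻¹ * V, ⟨⟨fun j => ⟨fun h => ?_, fun h => ?_⟩, fun j a => ?_⟩, fun j a => ?_⟩, hmul⟩
    · rw [coeff_cq]
      have h1 := (isHomogeneous_C (Fin 2) G⁻¹).mul ((hV.1.1 j).1 h)
      rwa [zero_add] at h1
    · rw [coeff_cq, (hV.1.1 j).2 h, mul_zero]
    · rw [coeff_cq, coeff_C_mul]
      have h1 := Pool.Agent.H62.HIL.hm_div (hV.1.2 j a) hB.hom hG0
      have h2 : G⁻¹ * (Polynomial.coeff V j).coeff a = (Polynomial.coeff V j).coeff a / G := by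
        rw [div_eq_mul_inv, mul_comm]
      have h3 : (τ : ℤ) - 2 * n + 3 * j - m = (τ : ℤ) - m - 2 * n + 3 * j := by ring
      rw [h2, ← h3]
      exact h1
    · have h1 := hall j a
      have h2 : cf u dd J m G (cq G⁻¹ * V) j a = cf u dd J m G V j a / G := by
        rw [cf_cq, div_eq_mul_inv, mul_comm]
      rw [← h2] at h1
      exact h1)
  have hm4 : 4 ≤ m := by
    have := hB.big
    omega
  have hq2 : ∀ j : ℕ, (Module.finrank k (BB k u (eu u dd) (e j)) : ℤ) ≤
      Module.finrank k (R (e j)) + δ * (m + 2 * c0) * (τ + n * (m + 2 * j0) + c0) := by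
    intro j
    have h3 : Module.finrank k (R (e j)) = Module.finrank k (BB k u (eu u dd) (e j - m)) :=
      finrank_mulL hG0 (e j)
    have h4 := hRDT k F u dd δ j0 c0 J m G hB (e j)
    rw [h3]
    refine h4.trans ?_
    have h5 : (δ : ℤ) * (m + 2 * c0) * max 0 (e j + c0) ≤
        δ * (m + 2 * c0) * (τ + n * (m + 2 * j0) + c0) := by
      refine mul_le_mul_of_nonneg_left ?_ (by positivity)
      refine max_le (by positivity) ?_
      have h1 : (0 : ℤ) ≤ j * (2 * m + 6 * j0 - 3) := by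
        refine mul_nonneg (by positivity) ?_
        have : (4 : ℤ) ≤ m := by exact_mod_cast hm4
        linarith [show (0 : ℤ) ≤ j0 from by positivity]
      have h2 : (0 : ℤ) ≤ n := by positivity
      simp only [he]
      nlinarith
    linarith
  have hsum : (∑ p : PP n, Module.finrank k (BB k u (eu u dd) (e p.1)) : ℤ) ≤
      (∑ p : PP n, Module.finrank k (R (e p.1)) : ℤ) +
      nC n * (δ * (m + 2 * c0) * (τ + n * (m + 2 * j0) + c0)) := by
    refine (Finset.sum_le_sum fun p _ => hq2 p.1).trans ?_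
    rw [Finset.sum_add_distrib, Finset.sum_const, Finset.card_univ, card_PP, nsmul_eq_mul]
  have h1 : (Module.finrank k (E u dd J m G n τ) : ℤ) +
      ∑ p : PP n, (Module.finrank k (R (e p.1)) : ℤ) ≤
      Module.finrank k (E u dd J m G n ((τ : ℤ) - m)) +
      ∑ p : PP n, (Module.finrank k (BB k u (eu u dd) (e p.1)) : ℤ) := by
    exact_mod_cast hmain
  linarith

end Pool.Agent.H67.SFU
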