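import Pool.Agent.H92.SF.LUT
import Pool.Agent.H62.HIL.Eig

/-!
# MP_70ba79_ag, THEOREM S, row RED: reduction
-/

set_option autoImplicit false

namespace Pool.Agent.H67.SFU

open MvPolynomial
open Pool.Agent.H84.SM (dp cr dt)
open Pool.Agent.H3.SF Pool.Agent.H92.SF
open Pool.Agent.H62.HIL (hm_mul hm_pow hm_sum hm_monomial hm_aeval hm_one)

section

variable {k F : Type} [Field k] [Field F] [Algebra k F]

theorem itg_u (u : Fin 3 → F) (i : Fin 3) : Itg k u (u i) :=
  Pool.Agent.H62.HIL.itg_iff.2 (Pool.Agent.H62.HIL.itg_var u i)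

theorem itg_ae (u : Fin 3 → F) (f : MvPolynomial (Fin 3) k) : Itg k u (aeval u f) :=
  Pool.Agent.H62.HIL.itg_iff.2 (Pool.Agent.H62.HIL.itg_aeval u f)

theorem itg_mul {u : Fin 3 → F} {a b : F} (ha : Itg k u a) (hb : Itg k u b) : Itg k u (a * b) :=
  (Bb k u).mul_mem ha hb

theorem itg_prod {u : Fin 3 → F} {τ : Type} (s : Finset τ) (f : τ → F)
    (h : ∀ i ∈ s, Itg k u (f i)) : Itg k u (∏ i ∈ s, f i) :=
  (Bb k u).prod_mem h

theorem hm_prod {E : Derivation k F F} {τ : Type} (s : Finset τ) (t : ℤ) (f : τ → F)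
    (h : ∀ i ∈ s, Hm k E t (f i)) : Hm k E (s.card * t) (∏ i ∈ s, f i) := by
  classical
  induction s using Finset.induction_on with
  | empty => simpa using hm_one (κ := k) (E := E)
  | insert a s ha ih =>
    rw [Finset.prod_insert ha, Finset.card_insert_of_notMem ha]
    have h1 := hm_mul (h a (Finset.mem_insert_self _ _))
      (ih fun i hi => h i (Finset.mem_insert_of_mem hi))
    have h2 : t + (s.card : ℤ) * t = ((s.card + 1 : ℕ) : ℤ) * t := by push_cast; ring
    rwa [h2] at h1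

/-- splitting a monomial -/
theorem split_mon (u : Fin 3 → F) (n : ℕ) : ∀ α : Fin 3 →₀ ℕ, n ≤ α.degree →
    ∃ (γ : Fin n → Fin 3) (α' : Fin 3 →₀ ℕ), α'.degree + n = α.degree ∧
      aeval u (monomial α (1 : k)) = (∏ i, u (γ i)) * aeval u (monomial α' (1 : k)) := by
  induction n with
  | zero =>
    intro α _
    exact ⟨Fin.elim0, α, by simp, by simp⟩
  | succ n ih =>
    intro α hα
    obtain ⟨j, hj⟩ : ∃ j, α j ≠ 0 := by
      by_contra hcon
      push Not at hcon
      have h0 : α = 0 := Finsupp.ext hcon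
      rw [h0] at hα
      simp at hα
    have hle : Finsupp.single j 1 ≤ α := by
      rw [Finsupp.single_le_iff]
      omega
    have hs : Finsupp.single j 1 + (α - Finsupp.single j 1) = α := add_tsub_cancel_of_le hle
    have hd : (α - Finsupp.single j 1).degree + 1 = α.degree := by
      conv_rhs => rw [← hs]
      rw [map_add, Finsupp.degree_single]
      omega
    obtain ⟨γ, α', h1, h2⟩ := ih (α - Finsupp.single j 1) (by omega)
    refine ⟨Fin.cons j γ, α', by omega, ?_⟩
    rw [Fin.prod_univ_succ, Fin.cons_zero]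
    simp only [Fin.cons_succ]
    rw [mul_assoc, ← h2]
    have h3 : (monomial α (1 : k) : MvPolynomial (Fin 3) k) =
        X j * monomial (α - Finsupp.single j 1) (1 : k) := by
      rw [X, monomial_mul, one_mul, hs]
    rw [h3, map_mul, aeval_X]

/-- sums `∑ (∏ v) z` with homogeneous `z` -/
def Sm (u : Fin 3 → F) (E : Derivation k F F) (v : Fin 3 → F) (N : ℕ) (t : ℤ) :
    Submodule k F where
  carrier := {x | ∃ z : (Fin N → Fin 3) → F, (∀ l, z l ∈ BB k u E t) ∧
    x = ∑ l, (∏ i, v (l i)) * z l}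
  add_mem' := by
    rintro a b ⟨z, hz, rfl⟩ ⟨y, hy, rfl⟩
    refine ⟨fun l => z l + y l, fun l => (BB k u E t).add_mem (hz l) (hy l), ?_⟩
    rw [← Finset.sum_add_distrib]
    exact Finset.sum_congr rfl fun l _ => (mul_add _ _ _).symm
  zero_mem' := ⟨fun _ => 0, fun _ => (BB k u E t).zero_mem, by simp⟩
  smul_mem' := by
    rintro c a ⟨z, hz, rfl⟩
    refine ⟨fun l => c • z l, fun l => (BB k u E t).smul_mem c (hz l), ?_⟩
    rw [Finset.smul_sum]
    exact Finset.sum_congr rfl fun l _ => (mul_smul_comm _ _ _).symm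

end

theorem pf_RED (hDAT : T_DAT) (hREA : T_REA) (hREB : T_REB) (hFGB : T_FGB) : T_RED := by
  intro k F _ _ _ _ _ u dd δ j0 c0 J m G hB
  haveI : CharZero F := charZero_of_injective_algebraMap (algebraMap k F).injective
  obtain ⟨-, -, -, -, hu1, hJh, hG1, -, hG2, -⟩ := hDAT k F u dd δ j0 c0 J m G hB
  have hm4 : j0 + 4 ≤ m := hB.big
  set E := eu u dd with hE
  set Ju := aeval u J with hJu
  have hJi : Itg k u Ju := itg_ae u J
  set d : ℕ := j0 + (m - 1) with hd
  have hdz : (d : ℤ) = (j0 : ℤ) + ((m : ℤ) - 1) := by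
    rw [hd]; push_cast [Nat.cast_sub (show 1 ≤ m by omega)]; ring
  have hcast : ∀ z : F, Hm k E (d : ℤ) z → E z = (d : F) * z := by
    intro z hz
    have h1 : E z = ((d : ℤ) : F) * z := hz
    rw [h1]; push_cast; ring
  have hv : ∀ i, Hm k E (d : ℤ) (Ju * dd i G) := by
    intro i
    rw [hdz]
    exact hm_mul hJh (hG1 i)
  have hf : ∀ β : Fin (m - 1) → Fin 3, Hm k E (d : ℤ) (Ju * ∏ i, u (β i)) := by
    intro β
    have h1 := hm_prod (k := k) (E := E) Finset.univ 1 (fun i => u (β i)) fun i _ => hu1 (β i)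
    rw [Finset.card_univ, Fintype.card_fin] at h1
    have h2 := hm_mul hJh h1
    have h3 : (j0 : ℤ) + ((m - 1 : ℕ) : ℤ) * 1 = (d : ℤ) := by rw [hd]; push_cast; ring
    rwa [h3] at h2
  obtain ⟨c1, hc1⟩ := hREB k F (Fin (m - 1) → Fin 3) u (fun l => Ju * dd l G)
    (fun β => Ju * ∏ i, u (β i)) E d (by omega) (fun i => hcast _ (hv i))
    (fun i => hcast _ (hf i)) (fun i => hG2 i)
    (fun β => itg_mul hJi (itg_prod _ _ fun i _ => itg_u u (β i)))
    (fun β => hREA k F u dd δ j0 c0 J m G hB β)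
  obtain ⟨s, η, dη, hη, hgen⟩ := hFGB k F u dd δ j0 c0 J m G hB
  refine ⟨c1, ∑ i, dη i, ?_⟩
  intro N e b he hb
  set t : ℤ := (e : ℤ) + (N + c1) * j0 - N * (j0 + m - 1) with ht
  suffices h : Ju ^ (N + c1) * b ∈ Sm u E (fun l => Ju * dd l G) N t from h
  obtain ⟨P, hP1, hP2, hP3⟩ := hgen e b hb
  rw [hP3, Finset.mul_sum]
  refine Submodule.sum_mem _ fun i _ => ?_
  have hdi : dη i ≤ ∑ i, dη i :=
    Finset.single_le_sum (f := dη) (fun _ _ => Nat.zero_le _) (Finset.mem_univ i)
  have hdi2 : dη i ≤ e := by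
    have := Nat.le_of_lt_succ (Nat.lt_succ_of_le (le_trans (Nat.le_add_left _ _) he))
    omega
  have hPh := hP1 i hdi2
  have hsum : Ju ^ (N + c1) * (aeval u (P i) * η i) =
      ∑ α ∈ (P i).support, (P i).coeff α •
        (Ju ^ (N + c1) * (aeval u (monomial α (1 : k)) * η i)) := by
    conv_lhs => rw [(P i).as_sum]
    rw [map_sum, Finset.sum_mul, Finset.mul_sum]
    refine Finset.sum_congr rfl fun α _ => ?_
    have h1 : (monomial α ((P i).coeff α) : MvPolynomial (Fin 3) k) =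
        (P i).coeff α • monomial α (1 : k) := by
      rw [smul_monomial, smul_eq_mul, mul_one]
    rw [h1, map_smul, smul_mul_assoc, mul_smul_comm]
  rw [hsum]
  refine Submodule.sum_mem _ fun α hα => Submodule.smul_mem _ _ ?_
  have hαd : α.degree = e - dη i := by
    rw [Finsupp.degree_eq_weight_one]
    exact hPh (mem_support_iff.mp hα)
  have hlen : (N + c1) * (m - 1) ≤ α.degree := by
    rw [hαd]
    have : (N + c1) * (m - 1) = (m - 1) * (N + c1) := mul_comm _ _
    omega
  obtain ⟨γ, α', hα', hsp⟩ := split_mon (k := k) u ((N + c1) * (m - 1)) α hlen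
  obtain ⟨z, hz, hzs⟩ := hc1 N (fun x y => γ (finProdFinEquiv (x, y)))
  have hprod : Ju ^ (N + c1) * ∏ i, u (γ i) =
      ∏ x : Fin (N + c1), (Ju * ∏ y : Fin (m - 1), u (γ (finProdFinEquiv (x, y)))) := by
    rw [Finset.prod_mul_distrib, Finset.prod_const, Finset.card_univ, Fintype.card_fin]
    congr 1
    rw [← Fintype.prod_prod_type' (fun (x : Fin (N + c1)) (y : Fin (m - 1)) =>
      u (γ (finProdFinEquiv (x, y)))), ← Equiv.prod_comp finProdFinEquiv]
  have hkey : Ju ^ (N + c1) * (aeval u (monomial α (1 : k)) * η i) =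
      ∑ l : Fin N → Fin 3, (∏ i, (Ju * dd (l i) G)) *
        (z l * (aeval u (monomial α' (1 : k)) * η i)) := by
    rw [hsp]
    have h1 : Ju ^ (N + c1) * ((∏ i, u (γ i)) * aeval u (monomial α' (1 : k)) * η i) =
        (Ju ^ (N + c1) * ∏ i, u (γ i)) * (aeval u (monomial α' (1 : k)) * η i) := by ring
    rw [h1, hprod, hzs, Finset.sum_mul]
    exact Finset.sum_congr rfl fun l _ => by ring
  refine ⟨fun l => z l * (aeval u (monomial α' (1 : k)) * η i), fun l => ⟨?_, ?_⟩, hkey⟩
  · exact itg_mul (hz l).1 (itg_mul (itg_ae u _) (hη i).1)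
  · have h1 : Hm k E ((c1 * d : ℕ) : ℤ) (z l) := by
      have h2 := (hz l).2
      change E (z l) = _
      rw [h2]; push_cast; ring
    have h3 := hm_monomial (κ := k) (E := E) hu1 α' 1
    have h4 := hm_mul h1 (hm_mul h3 (hη i).2)
    have h5 : ((c1 * d : ℕ) : ℤ) + ((α'.degree : ℤ) + (dη i : ℤ)) = t := by
      have h6 : (α'.degree : ℤ) = (e : ℤ) - dη i - (N + c1) * ((m : ℤ) - 1) := by
        have h7 : ((α'.degree + (N + c1) * (m - 1) : ℕ) : ℤ) = ((e - dη i : ℕ) : ℤ) := by
          rw [hα', hαd]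
        push_cast [Nat.cast_sub hdi2, Nat.cast_sub (show 1 ≤ m by omega)] at h7
        linarith
      rw [h6, ht]
      push_cast
      rw [hdz]
      ring
    rw [h5] at h4
    exact h4

end Pool.Agent.H67.SFU
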